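import Pool.Agent.U974.TW.X49

/-!
# Goldfeld's conjecture: all the twists of `X_0(49)` by the products of the primes of bounded clusters

`E = X_0(49)`, with the model `y² = x³ - 35 x - 98`, and `E^d : y² = x³ - 35 d² x - 98 d³`. `Good d` says that
`E^d` has analytic rank zero, that `E^d(ℚ)` is finite and that `Ш(E^d/ℚ)[2^∞] = 0`; `Bad d` says that `E^d(ℚ)` is
infinite or `Ш(E^d/ℚ)[2] ≠ 0`.

There are a bound `C`, a set `H ⊆ [0, C]` and `{d₀, d₁} = {1, 5}` such that for infinitely many `n` the primes in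
`[n, n + C]` are exactly the `n + y`, `y ∈ H`, all in a prescribed class modulo `L`, and this cluster of primes
contains ALL graphs: for every graph `G` with the vertices `1, …, m` there are `h_1 < … < h_m` in `H`,
independent of `n`, such that for EVERY nonempty `S ⊆ {1, …, m}`

* `E^d`, `d = d₀ ∏_{i ∈ S} (n + h_i)`, is good if the determinant of `1 + Laplacian` of the induced subgraph `G[S]`
  (the number of the rooted spanning forests of `G[S]`) is odd, and bad if it is even;
* `E^d`, `d = d₁ ∏_{i ∈ S} (n + h_i)`, is bad.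

For the graph without edges: all the `2^m - 1` twists by `d₀ ∏_S` have analytic rank zero.

Proof. In `Pool/Agent/U974/LG` and `Pool/Agent/U974/TW/Eng.lean` tuples are constructed such that the Legendre
symbols between the primes that the theorem of Maynard and Tao finds are those of a Paley graph modulo a large
prime `Q`, whatever the primes are; a positive proportion of the points of the Paley graph occurs and so every
pattern of Legendre symbols. The condition whether `-7` is a fourth power modulo `p` is not a congruence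
condition on `p`: one uses lexicographic products of two graphs, in which every colouring of the points with two
colours has a copy of the first graph in the first colour or of the second in the second (`TW/Mono.lean`), and
the auxiliary prime `5`, which is inert and not a square modulo the primes of the cluster, to exchange the
colours (`TW/X49.lean`). The criterion for one twist is that of
the starting file `MP_4a9ea6_nt/TwoPartTwistsX49` in the form `R413/SQ/Cor`.
-/

set_option autoImplicit false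

open scoped Classical

open WeierstrassCurve

namespace Pool.Agent.Results.MP_03e5d0_nt.BoundedClusters

open Pool.Agent.TH841.NF.D (Sha)

/-- the coefficient of `x` of `E^d` -/
def A (d : ℕ) : ℤ := -35 * (d : ℤ) ^ 2

/-- the constant coefficient of `E^d` -/
def B (d : ℕ) : ℤ := -98 * (d : ℤ) ^ 3

/-- the twist `E^d : y² = x³ - 35 d² x - 98 d³` of `X_0(49)` -/
def twist (d : ℕ) : WeierstrassCurve ℚ :=
  { a₁ := 0, a₂ := 0, a₃ := 0, a₄ := (A d : ℚ), a₆ := (B d : ℚ) }

/-- `L(E^d, s)`, the Euler product over the primes `p ∤ 2 (4 A³ + 27 B²)`, extends to an entire function which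
does not vanish at `s = 1`: the analytic rank is zero -/
def AnalyticRankZero (d : ℕ) : Prop :=
  4 * A d ^ 3 + 27 * B d ^ 2 ≠ 0 ∧
    ∃ F : ℂ → ℂ, Differentiable ℂ F ∧
      (∀ s : ℂ, (3 : ℝ) / 2 < s.re →
        HasProd
          (fun p : ℕ => if p.Prime ∧ ¬ ((p : ℤ) ∣ 2 * (-4 * A d ^ 3 - 27 * B d ^ 2)) then
              (1 - ((p : ℂ) - (Nat.card {q : ZMod p × ZMod p //
                  q.2 ^ 2 = q.1 ^ 3 + (A d : ZMod p) * q.1 + (B d : ZMod p)} : ℂ))
                  * (p : ℂ) ^ (-s) + (p : ℂ) ^ (1 - 2 * s))⁻¹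
            else 1)
          (F s)) ∧ F 1 ≠ 0

/-- `E^d` has analytic rank zero, `E^d(ℚ)` is finite and `Ш(E^d/ℚ)[2^∞] = 0` -/
def Good (d : ℕ) : Prop :=
  AnalyticRankZero d ∧ Finite (twist d).toAffine.Point ∧
    ∀ (n : ℕ) (x : Sha (twist d)), 2 ^ n • x = 0 → x = 0

/-- `E^d(ℚ)` is infinite or `Ш(E^d/ℚ)[2] ≠ 0` -/
def Bad (d : ℕ) : Prop :=
  Infinite (twist d).toAffine.Point ∨ ∃ x : Sha (twist d), x ≠ 0 ∧ 2 • x = 0

/-- the determinant of the matrix `1 + Laplacian` of the subgraph of `G` induced on `S` is odd -/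
def OddForests {m : ℕ} (G : SimpleGraph (Fin m)) (S : Finset (Fin m)) : Prop :=
  ((1 : Matrix (S : Set (Fin m)) (S : Set (Fin m)) (ZMod 2)) +
    (G.induce (S : Set (Fin m))).lapMatrix (ZMod 2)).det ≠ 0

section proof

open Pool.Agent.R413.SQ
open Pool.Agent.Results.MP_4a9ea6_nt.TwoPartTwistsX49 (Adm adm_mod)
open Pool.Agent.Y698.SG (n4)

theorem disc_ne {D : ℕ} (hD : D ≠ 0) : 4 * (A D) ^ 3 + 27 * (B D) ^ 2 ≠ 0 := by
  have h : (D : ℤ) ≠ 0 := by exact_mod_cast hD
  have e : 4 * (A D) ^ 3 + 27 * (B D) ^ 2 = 87808 * (D : ℤ) ^ 6 := by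
    unfold A B
    ring
  rw [e]
  positivity

theorem good_of {D : ℕ} (h : Adm D) (hG : Gd n4 D.primeFactors) : Good D := by
  have hd := (Cor.det_iff h).2 hG
  obtain ⟨F, g1, g2, g3, -⟩ := Cor.rank_bsd h hd
  refine ⟨⟨disc_ne h.1.ne_zero, F, g1, g2, (g1.analyticAt 1).analyticOrderAt_eq_zero.1 g3⟩,
    ((Cor.crit h).2 hd).1, fun n x hx => ?_⟩
  have h4 := adm_mod h
  have e2 := (Pool.Agent.Y655.XT.isoVR (Cor.vr h4) (Cor.discM h4)).sha
  have h1 := (Pool.Agent.Results.MP_4a9ea6_nt.TwoPartTwistsX49.core h).2.2.2.2.1 hd n (e2.symm x)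
    (by rw [← map_nsmul]; exact (congrArg e2.symm hx).trans (map_zero _))
  exact (map_eq_zero_iff e2.symm e2.symm.injective).1 h1

theorem bad_of {D : ℕ} (h : Adm D) (hG : ¬ Gd n4 D.primeFactors) : Bad D := by
  have h1 : ¬ (Finite (twist D).toAffine.Point ∧ ∀ x : Sha (twist D), 2 • x = 0 → x = 0) :=
    fun h2 => hG ((Cor.det_iff h).1 ((Cor.crit h).1 h2))
  by_cases h2 : Finite (twist D).toAffine.Point
  · right
    by_contra h3
    push Not at h3
    exact h1 ⟨h2, fun x hx => by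
      by_contra h4
      exact h3 x h4 hx⟩
  · left
    exact not_finite_iff_infinite.1 h2

end proof

/-- **The twists of `X_0(49)` by the products of the primes of bounded clusters.** -/
theorem result (m L c : ℕ) (hL0 : 0 < L) (hL : 140 ∣ L) (hc : c.Coprime L) (h4 : c % 4 = 1)
    (h7 : c % 7 = 1 ∨ c % 7 = 2 ∨ c % 7 = 4) (h5 : c % 5 = 2 ∨ c % 5 = 3) :
    ∃ (C : ℕ) (H : Finset ℕ) (h : SimpleGraph (Fin m) → Fin m → ℕ) (d₀ d₁ : ℕ),
      (d₀ = 1 ∧ d₁ = 5 ∨ d₀ = 5 ∧ d₁ = 1) ∧ (∀ y ∈ H, y ≤ C) ∧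
      (∀ G, StrictMono (h G) ∧ ∀ i, h G i ∈ H) ∧
      {n : ℕ | (∀ y ≤ C, ((n + y).Prime ↔ y ∈ H)) ∧ (∀ y ∈ H, n + y ≡ c [MOD L]) ∧
        ∀ (G : SimpleGraph (Fin m)) (S : Finset (Fin m)), S.Nonempty →
          (OddForests G S → Good (d₀ * ∏ i ∈ S, (n + h G i))) ∧
          (¬ OddForests G S → Bad (d₀ * ∏ i ∈ S, (n + h G i))) ∧
          Bad (d₁ * ∏ i ∈ S, (n + h G i))}.Infinite := by
  obtain ⟨C, H, h, β, h1, h6, h3⟩ := Pool.Agent.U974.TW.main m L c hL0 hL hc h4 h7 h5
  refine ⟨C, H, h, Pool.Agent.U974.TW.dd β, Pool.Agent.U974.TW.dd (!β), ?_, h6, h1, h3.mono ?_⟩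
  · cases β
    · exact Or.inl ⟨rfl, rfl⟩
    · exact Or.inr ⟨rfl, rfl⟩
  · rintro n ⟨g1, g2, g3⟩
    refine ⟨g1, g2, fun G S hS => ⟨fun ho => ?_, fun ho => ?_, ?_⟩⟩
    · exact good_of (g3 G β S).1 (((g3 G β S).2 hS).2 ⟨rfl, ho⟩)
    · exact bad_of (g3 G β S).1 (fun hg => ho (((g3 G β S).2 hS).1 hg).2)
    · refine bad_of (g3 G (!β) S).1 (fun hg => ?_)
      have h8 := (((g3 G (!β) S).2 hS).1 hg).1
      cases β <;> simp at h8

end Pool.Agent.Results.MP_03e5d0_nt.BoundedClusters
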