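import Pool.Agent.U120.DL.Uni
import Pool.Agent.U120.DL.Jnt
import Pool.Agent.R413.SQ.Cor

/-!
# Goldfeld's conjecture: the joint law of ALL the twists of `X_0(49)` by the divisors of `p_1 ⋯ p_k`, the primes
# from arbitrary sets of `X^(2/3 + η)` primes up to `X`

`E = X_0(49)`, with the model `y² = x³ - 35 x - 98`, and `E^d : y² = x³ - 35 d² x - 98 d³`. `Good d` says that
`E^d` has analytic rank zero (`Nonvanishing`), `E^d(ℚ)` is finite and `Ш(E^d/ℚ)[2^∞] = 0`.

Let `C_1, …, C_k` be ANY sets of at most `s` primes `≡ 1 mod 4` up to `X`, for instance all equal to an arbitrary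
set of `s ≥ X^(2/3 + η)` primes. For `p_1 ∈ C_1, …, p_k ∈ C_k`, pairwise different, consider all the `2^k` twists
`E^d`, `d = ∏_{i ∈ V} p_i`, `V ⊆ {1, …, k}`.

* JOINT LAW. The set of all `V` for which `d` is good has exactly the law of a random matrix: let `a` be a random
  symmetric matrix over the field with two elements, with zeros on the diagonal. For `V` take the elements of
  `V` which are split in `ℚ(√-7)`, the matrix of the `a_jl` for these, with the diagonal entries
  `g_j + ∑_{l ∈ V} a_jl`, where `g_j = 1` if `-7` is no fourth power modulo `p_j` and `g_j = 0` otherwise. The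
  event `V is good` corresponds to the event that this matrix is nonsingular, simultaneously for all `V`: for
  every property `Φ` of the set of the good `V` the number of the `(p_1, …, p_k)` with `Φ` is the sum of the
  probabilities of `Φ` in this model, up to `5 · 3^k · 2^(k²) · √X · s^(k - 3/4)`, a power saving as soon as the
  sets have `X^(2/3 + η)` elements.
* ALL THE TWISTS. For `Φ` = `all the 2^k twists are good` the probability is explicit: it is zero if `-7` is a
  fourth power modulo some `p_i`, and otherwise, with `a` inert and `c` split `p_i`, it is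
  `m(c) / 2^(c a + c (c - 1) / 2)`, `m(c)` the number of the matchings (involutions) of `c` points. So for
  this explicit positive proportion of the `k`-subsets `U` of an arbitrary set of primes all the `2^k` twists
  `E^d`, `d | ∏ U`, have analytic rank zero.

The criterion for one twist is that of the starting library (`MP_4a9ea6_nt/TwoPartTwistsX49`,
`R413/SQ/Cor`), also the passage from bilinear estimates to the joint law of the symbols (`Y356`). New
(`Pool/Agent/U120`): the bilinear estimate for arbitrary sparse sets, the joint law, the explicit probability.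
-/

set_option autoImplicit false

open scoped Classical

open WeierstrassCurve

namespace Pool.Agent.Results.MP_03e5d0_nt.JointLawOfDivisorTwists

open Pool.Agent.TH841.NF.D (Sha)

/-- the coefficient of `x` -/
def A (D : ℕ) : ℤ := -35 * (D : ℤ) ^ 2

/-- the constant coefficient -/
def B (D : ℕ) : ℤ := -98 * (D : ℤ) ^ 3

/-- the twist `E^D : y² = x³ - 35 D² x - 98 D³` of `X_0(49)` -/
def twist (D : ℕ) : WeierstrassCurve ℚ :=
  { a₁ := 0, a₂ := 0, a₃ := 0, a₄ := (A D : ℚ), a₆ := (B D : ℚ) }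

/-- `L(E_D, s)`, the Euler product over the primes `p ∤ 2 (4 a³ + 27 b²)`, `a = A D`, `b = B D`, extends to
an entire function which does not vanish at `s = 1`: the analytic rank is zero -/
def Nonvanishing (D : ℕ) : Prop :=
  4 * A D ^ 3 + 27 * B D ^ 2 ≠ 0 ∧
    ∃ F : ℂ → ℂ, Differentiable ℂ F ∧
      (∀ s : ℂ, (3 : ℝ) / 2 < s.re →
        HasProd
          (fun p : ℕ => if p.Prime ∧ ¬ ((p : ℤ) ∣ 2 * (-4 * A D ^ 3 - 27 * B D ^ 2)) then
              (1 - ((p : ℂ) - (Nat.card {q : ZMod p × ZMod p //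
                  q.2 ^ 2 = q.1 ^ 3 + (A D : ZMod p) * q.1 + (B D : ZMod p)} : ℂ))
                  * (p : ℂ) ^ (-s) + (p : ℂ) ^ (1 - 2 * s))⁻¹
            else 1)
          (F s)) ∧ F 1 ≠ 0

/-- `E_D(ℚ)` is finite, `Ш(E_D/ℚ)[2^∞] = 0` and `L(E_D, 1) ≠ 0` -/
def Good (D : ℕ) : Prop :=
  Finite (twist D).toAffine.Point ∧ (∀ (n : ℕ) (x : Sha (twist D)), 2 ^ n • x = 0 → x = 0) ∧
    Nonvanishing D

/-- `p` is a prime `≡ 1 mod 4` -/
def Prime4 (p : ℕ) : Prop := p.Prime ∧ p % 4 = 1

/-- `p` splits in `ℚ(√-7)` -/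
def Split (p : ℕ) : Prop := IsSquare (-7 : ZMod p)

/-- `-7` is a fourth power modulo `p` -/
def Fourth (p : ℕ) : Prop := ∃ y : ZMod p, y ^ 4 = -7

/-- the type of `p`: `0` for inert, `1` for split with `-7` a fourth power modulo `p`, `2` for split with `-7`
no fourth power -/
noncomputable def typ (p : ℕ) : Fin 3 := if Split p then (if Fourth p then 1 else 2) else 0

/-- The matrix of the subset `V` is nonsingular: it is the symmetric matrix, over the split elements of `V`,
with the entries `a j l` outside of the diagonal and `g j + ∑_{l ∈ V} a j l` on the diagonal, `g j = 1` for the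
type `2` and `g j = 0` for the type `1`. -/
def Nonsingular {k : ℕ} (t : Fin k → Fin 3) (a : Fin k → Fin k → ZMod 2) (V : Finset (Fin k)) : Prop :=
  ∀ y : Fin k → ZMod 2, (∀ i, i ∉ V ∨ t i = 0 → y i = 0) →
    (∀ j ∈ V, t j ≠ 0 → ∑ l ∈ V, a j l * (y l + y j) + (if t j = 2 then 1 else 0) * y j = 0) →
      ∀ i, y i = 0

/-- the probability, for a random symmetric matrix with zero diagonal, that the set of the subsets with
nonsingular matrices has the property `Φ` -/
noncomputable def modelChance {k : ℕ} (Φ : Set (Finset (Fin k)) → Prop) (t : Fin k → Fin 3) : ℝ :=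
  (Nat.card {a : Matrix (Fin k) (Fin k) (ZMod 2) // a.IsSymm ∧ (∀ i, a i i = 0) ∧
    Φ {V | Nonsingular t a V}} : ℝ) / 2 ^ (k * (k - 1) / 2)

/-- the error for sets of at most `s` primes up to `X` -/
noncomputable def error (k X s : ℕ) : ℝ :=
  5 * 3 ^ k * 2 ^ (k ^ 2) * √(X : ℝ) * (s : ℝ) ^ k / (s : ℝ) ^ ((3 : ℝ) / 4)

/-- the number of the inert elements -/
noncomputable def inertNum (U : Finset ℕ) : ℕ := (U.filter fun p => ¬ Split p).card

/-- the number of the (split) elements modulo which `-7` is a fourth power -/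
noncomputable def fourthNum (U : Finset ℕ) : ℕ := (U.filter fun p => Fourth p).card

/-- the number of the split elements modulo which `-7` is no fourth power -/
noncomputable def otherNum (U : Finset ℕ) : ℕ := (U.filter fun p => Split p ∧ ¬ Fourth p).card

/-- the number of the graphs on `c` points all of whose degrees are at most one, i.e. of the involutions -/
noncomputable def mat (c : ℕ) : ℕ :=
  Nat.card {G : SimpleGraph (Fin c) // ∀ u v w, G.Adj u v → G.Adj u w → v = w}

/-- the probability that all the twists by products of elements of `U` are good -/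
noncomputable def allChance (U : Finset ℕ) : ℝ :=
  if fourthNum U = 0 then (mat (otherNum U) : ℝ) /
    2 ^ (otherNum U * inertNum U + otherNum U * (otherNum U - 1) / 2) else 0

/-- the twists by the products of the elements of all the subsets are good -/
def AllGood (U : Finset ℕ) : Prop := ∀ V ⊆ U, Good (∏ p ∈ V, p)

section proof

open Pool.Agent.R413.SQ
open Pool.Agent.Results.MP_4a9ea6_nt.TwoPartTwistsX49 (Adm adm_mod)
open Pool.Agent.U120.DL (P4 lab cl dM chMU er dvG PF NS)
open Pool.Agent.Y698.SG (n4)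
open Pool.Agent.Y703.CQ (nr)

theorem disc_ne {D : ℕ} (hD : D ≠ 0) : 4 * (A D) ^ 3 + 27 * (B D) ^ 2 ≠ 0 := by
  have h : (D : ℤ) ≠ 0 := by exact_mod_cast hD
  have e : 4 * (A D) ^ 3 + 27 * (B D) ^ 2 = 87808 * (D : ℤ) ^ 6 := by
    unfold A B
    ring
  rw [e]
  positivity

theorem good_iff {D : ℕ} (h : Adm D) : Good D ↔ Gd n4 D.primeFactors := by
  constructor
  · rintro ⟨h1, h2, -⟩
    exact (Cor.det_iff h).1 ((Cor.crit h).1 ⟨h1, fun x hx => h2 1 x (by rwa [pow_one])⟩)
  · intro hG
    have hd := (Cor.det_iff h).2 hG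
    obtain ⟨F, g1, g2, g3, -⟩ := Cor.rank_bsd h hd
    refine ⟨((Cor.crit h).2 hd).1, fun n x hx => ?_, disc_ne h.1.ne_zero, F, g1, g2,
      (g1.analyticAt 1).analyticOrderAt_eq_zero.1 g3⟩
    have h4 := adm_mod h
    have e2 := (Pool.Agent.Y655.XT.isoVR (Cor.vr h4) (Cor.discM h4)).sha
    have h1 := (Pool.Agent.Results.MP_4a9ea6_nt.TwoPartTwistsX49.core h).2.2.2.2.1 hd n (e2.symm x)
      (by rw [← map_nsmul]; exact (congrArg e2.symm hx).trans (map_zero _))
    exact (map_eq_zero_iff e2.symm e2.symm.injective).1 h1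

theorem prod_fac {S : Finset ℕ} (h : ∀ p ∈ S, p.Prime ∧ p % 4 = 1) :
    Adm (∏ p ∈ S, p) ∧ (∏ p ∈ S, p).primeFactors = S := by
  have h1 : (∏ p ∈ S, p).primeFactors = S := Nat.primeFactors_prod fun p hp => (h p hp).1
  refine ⟨⟨?_, fun p hp => ?_⟩, h1⟩
  · refine Finset.squarefree_prod_of_pairwise_isCoprime ?_ fun p hp => (h p hp).1.squarefree
    intro p hp q hq hpq
    exact Nat.coprime_iff_isRelPrime.1 ((Nat.coprime_primes (h p hp).1 (h q hq).1).2 hpq)
  · rw [h1] at hp
    exact (h p hp).2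

theorem good_gd {U : Finset ℕ} (h : ∀ p ∈ U, Prime4 p) : Good (∏ p ∈ U, p) ↔ Gd n4 U := by
  obtain ⟨h1, h2⟩ := prod_fac h
  rw [good_iff h1, h2]

theorem allGood_iff {U : Finset ℕ} (h : ∀ p ∈ U, Prime4 p) :
    AllGood U ↔ Pool.Agent.U120.MF.Mt (U : Set ℕ) := by
  rw [← (Pool.Agent.U120.MF.classify (T := (U : Set ℕ)) fun p hp => h p (Finset.mem_coe.1 hp)).1]
  constructor
  · intro hU V hV
    have hV' : V ⊆ U := Finset.coe_subset.1 hV
    obtain ⟨h1, h2, -⟩ := hU V hV'
    exact ⟨h1, fun x hx => h2 1 x (by rwa [pow_one])⟩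
  · intro hU V hV
    have hp : ∀ p ∈ V, Prime4 p := fun p hp => h p (hV hp)
    obtain ⟨h1, h2⟩ := prod_fac hp
    rw [good_gd hp, ← h2]
    exact (Cor.det_iff h1).1 ((Cor.crit h1).1 (hU V (Finset.coe_subset.2 hV)))

theorem lab_cases {p : ℕ} (h : Prime4 p) :
    (lab p = 0 ↔ ¬ Split p) ∧ (lab p = 1 ↔ Fourth p) ∧ (lab p = 2 ↔ Split p ∧ ¬ Fourth p) := by
  have hs : Split p ↔ R413.SQ.mk p = 1 := Cor.mk_iff h.1 h.2
  have hfs : Fourth p → Split p := by
    rintro ⟨y, hy⟩
    exact ⟨y ^ 2, by rw [← hy]; ring⟩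
  have hn : n4 p = 1 ↔ ¬ Fourth p := Pool.Agent.U120.MF.n4_one
  unfold Pool.Agent.U120.DL.lab
  by_cases h1 : R413.SQ.mk p = 1
  · have h2 := hs.2 h1
    by_cases h3 : Fourth p
    · rw [if_pos h1, if_neg fun h => (hn.1 h) h3]
      exact ⟨⟨fun h => absurd h (by decide), fun h => absurd h2 h⟩, ⟨fun _ => h3, fun _ => rfl⟩,
        ⟨fun h => absurd h (by decide), fun h => absurd h3 h.2⟩⟩
    · rw [if_pos h1, if_pos (hn.2 h3)]
      exact ⟨⟨fun h => absurd h (by decide), fun h => absurd h2 h⟩,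
        ⟨fun h => absurd h (by decide), fun h => absurd h h3⟩, ⟨fun _ => ⟨h2, h3⟩, fun _ => rfl⟩⟩
  · have h2 : ¬ Split p := fun h => h1 (hs.1 h)
    rw [if_neg h1]
    exact ⟨⟨fun _ => h2, fun _ => rfl⟩, ⟨fun h => absurd h (by decide), fun h => absurd (hfs h) h2⟩,
      ⟨fun h => absurd h (by decide), fun h => absurd h.1 h2⟩⟩

theorem card_iff {s : Finset ℕ} {P Q : ℕ → Prop} [DecidablePred P] [DecidablePred Q]
    (h : ∀ x ∈ s, (P x ↔ Q x)) : (s.filter P).card = (s.filter Q).card := by
  refine congrArg Finset.card (Finset.ext fun x => ?_)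
  rw [Finset.mem_filter, Finset.mem_filter]
  exact and_congr_right fun hx => h x hx

theorem inert_eq {U : Finset ℕ} (h : ∀ p ∈ U, Prime4 p) : inertNum U = cl 0 U :=
  card_iff fun p hp => (lab_cases (h p hp)).1.symm

theorem fourth_eq {U : Finset ℕ} (h : ∀ p ∈ U, Prime4 p) : fourthNum U = cl 1 U :=
  card_iff fun p hp => (lab_cases (h p hp)).2.1.symm

theorem other_eq {U : Finset ℕ} (h : ∀ p ∈ U, Prime4 p) : otherNum U = cl 2 U :=
  card_iff fun p hp => (lab_cases (h p hp)).2.2.symm

theorem allChance_eq {U : Finset ℕ} (h : ∀ p ∈ U, Prime4 p) : allChance U = chMU U := by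
  unfold allChance Pool.Agent.U120.DL.chMU Pool.Agent.U120.DL.chM
  rw [inert_eq h, fourth_eq h, other_eq h]
  rfl

theorem ind_iff {P Q : Prop} [Decidable P] [Decidable Q] (h : P ↔ Q) :
    (if P then (1 : ℝ) else 0) = if Q then 1 else 0 := by
  by_cases hP : P
  · rw [if_pos hP, if_pos (h.1 hP)]
  · rw [if_neg hP, if_neg fun hQ => hP (h.2 hQ)]

theorem all_dM {U : Finset ℕ} (h : ∀ p ∈ U, Prime4 p) :
    (if AllGood U then (1 : ℝ) else 0) - allChance U = dM U := by
  rw [allChance_eq h, ind_iff (allGood_iff h)]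
  rfl

theorem prime_image {k : ℕ} {C : Fin k → Finset ℕ} {X : ℕ}
    (hC : ∀ i, ∀ p ∈ C i, Prime4 p ∧ p ≤ X) {p : Fin k → ℕ}
    (hp : p ∈ (Fintype.piFinset C).filter Function.Injective) :
    ∀ q ∈ Finset.univ.image p, Prime4 q := by
  intro q hq
  rw [Finset.mem_filter, Fintype.mem_piFinset] at hp
  obtain ⟨i, -, rfl⟩ := Finset.mem_image.1 hq
  exact (hC i _ (hp.1 i)).1

theorem typ_lab {p : ℕ} (h : Prime4 p) : typ p = lab p := by
  obtain ⟨h1, h2, h3⟩ := lab_cases h
  unfold typ
  by_cases hs : Split p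
  · rw [if_pos hs]
    by_cases hf : Fourth p
    · rw [if_pos hf, h2.2 hf]
    · rw [if_neg hf, h3.2 ⟨hs, hf⟩]
  · rw [if_neg hs, h1.2 hs]

theorem prod_image {k : ℕ} {p : Fin k → ℕ} (hp : Function.Injective p) (V : Finset (Fin k)) :
    ∏ i ∈ V, p i = ∏ q ∈ V.image p, q := by
  rw [Finset.prod_image fun a _ b _ hab => hp hab]

theorem set_eq {k : ℕ} {p : Fin k → ℕ} (h : ∀ i, Prime4 (p i)) (hp : Function.Injective p) :
    {V : Finset (Fin k) | Good (∏ i ∈ V, p i)} =
      {V | Nonsingular (fun i => lab (p i)) (fun i j => nr (p i) (p j)) V} := by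
  ext V
  rw [Set.mem_ofPred_eq, Set.mem_ofPred_eq, prod_image hp, good_gd fun q hq => by
    obtain ⟨i, -, rfl⟩ := Finset.mem_image.1 hq
    exact h i]
  exact Pool.Agent.U120.DL.gd_ns hp V

theorem model_eq {k : ℕ} (Φ : Set (Finset (Fin k)) → Prop) (t : Fin k → Fin 3) :
    modelChance Φ t = PF (fun t a => Φ {V | NS t a V}) t := by
  rw [Pool.Agent.U120.DL.PF_eq, Fintype.card_fin]
  rfl

theorem joint_law {k X s : ℕ} {C : Fin k → Finset ℕ} (hk : 1 ≤ k) (hX : 1 ≤ X) (hs : 1 ≤ s)
    (hC : ∀ i, ∀ p ∈ C i, Prime4 p ∧ p ≤ X) (hCs : ∀ i, (C i).card ≤ s)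
    (Φ : Set (Finset (Fin k)) → Prop) :
    |∑ p ∈ (Fintype.piFinset C).filter Function.Injective,
        ((if Φ {V | Good (∏ i ∈ V, p i)} then (1 : ℝ) else 0) -
          modelChance Φ fun i => typ (p i))| ≤ error k X s := by
  have h := Pool.Agent.U120.DL.boxG hk hX hs C hC hCs fun t a => Φ {V | NS t a V}
  have e : ∀ p ∈ (Fintype.piFinset C).filter Function.Injective,
      ((if Φ {V | Good (∏ i ∈ V, p i)} then (1 : ℝ) else 0) - modelChance Φ fun i => typ (p i)) =
        dvG (fun t a => Φ {V | NS t a V}) p := by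
    intro p hp
    rw [Finset.mem_filter, Fintype.mem_piFinset] at hp
    have h4 : ∀ i, Prime4 (p i) := fun i => (hC i _ (hp.1 i)).1
    have e1 : (fun i => typ (p i)) = fun i => lab (p i) := funext fun i => typ_lab (h4 i)
    rw [model_eq, e1, set_eq h4 hp.2]
    rfl
  rw [Finset.sum_congr rfl e]
  exact h

theorem all_law {k X : ℕ} {S : Finset ℕ} (hk : 1 ≤ k) (hS : ∀ p ∈ S, Prime4 p ∧ p ≤ X)
    (hn : S.Nonempty) :
    |(((S.powersetCard k).filter AllGood).card : ℝ) - ∑ U ∈ S.powersetCard k, allChance U| ≤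
      error k X S.card / k.factorial := by
  obtain ⟨p, hp⟩ := id hn
  have hX : 1 ≤ X := (hS p hp).1.1.one_le.trans (hS p hp).2
  have e : (((S.powersetCard k).filter AllGood).card : ℝ) - ∑ U ∈ S.powersetCard k, allChance U =
      ∑ U ∈ S.powersetCard k, dM U := by
    rw [← Finset.sum_boole, ← Finset.sum_sub_distrib]
    exact Finset.sum_congr rfl fun U hU => all_dM fun q hq =>
      (hS q ((Finset.mem_powersetCard.1 hU).1 hq)).1
  rw [e]
  exact Pool.Agent.U120.DL.lawM hX hS hk hn

end proof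

theorem result :
    -- the joint law of all the partial products
    (∀ (k X s : ℕ) (C : Fin k → Finset ℕ), 1 ≤ k → 1 ≤ X → 1 ≤ s →
      (∀ i, ∀ p ∈ C i, Prime4 p ∧ p ≤ X) → (∀ i, (C i).card ≤ s) →
      ∀ Φ : Set (Finset (Fin k)) → Prop,
        |∑ p ∈ (Fintype.piFinset C).filter Function.Injective,
          ((if Φ {V | Good (∏ i ∈ V, p i)} then (1 : ℝ) else 0) -
            modelChance Φ fun i => typ (p i))| ≤ error k X s) ∧
    -- the explicit case: all the twists are good
    ∀ (k X : ℕ) (S : Finset ℕ), 1 ≤ k → (∀ p ∈ S, Prime4 p ∧ p ≤ X) → S.Nonempty →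
      |(((S.powersetCard k).filter AllGood).card : ℝ) - ∑ U ∈ S.powersetCard k, allChance U| ≤
        error k X S.card / k.factorial :=
  ⟨fun _ _ _ _ hk hX hs hC hCs Φ => joint_law hk hX hs hC hCs Φ,
    fun _ _ _ hk hS hn => all_law hk hS hn⟩

end Pool.Agent.Results.MP_03e5d0_nt.JointLawOfDivisorTwists
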