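import Pool.Agent.Results.MP_03e5d0_nt.FullClassX49
import Pool.Agent.Results.MP_32c55d_nt.InertTowersX49

/-!
# Analytic rank zero for the twists of `X_0(49)` by the values of `M m (a² + b²)`, for a positive proportion of
# all pairs `a`, `b` and all `m` in an infinite group at once

For a rational number `t = a / b` in lowest terms let `h(t) = a² + b²`, and let `M` be a squarefree product of
primes `≡ 1 mod 4`. The twist of `X_0(49)` by `M (a² + b²)`, the generic fibre of the elliptic surface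
`M (t² + 1) y² = x³ - 35 x - 98` at `t`, is the twist `E_D` by the squarefree part `D` of `M (a² + b²)`. The
`t` are ordered by `a² + b²`; so the squarefree numbers `D = a² + b²` are counted with the number of their
representations (that is `2 ^ ω(D)` up to a constant), and they have density zero in the integers.

* For every finite set `T` of such `M` and every `V ⊆ T`, for exactly the proportion
  `c ^ |V| (1 - c) ^ |T \ V|` of the `t` with `a² + b²` odd and squarefree, `V` is the set of the `M ∈ T` for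
  which the twist by `M (a² + b²)` has finitely many rational points and `Ш[2] = 0`; the analytic rank of these
  twists is zero. Here `c = ∏_{i ≥ 0} (1 - 2^{-(2i+1)}) = 0.4194...`.
* For every `T`, for a positive proportion of ALL rational numbers `t`, ordered by `a² + b²` or by
  `max(|a|, b)`, the twists by `M (a² + b²) m` have analytic rank zero for all `M ∈ T` and for ALL
  the products `m` of tower primes: the primes `q ≡ 1 mod 4`, inert in `ℚ(√-7)`, that are squares modulo all the
  prime factors of `D` that split in `ℚ(√-7)`; these primes are infinitely many.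

The count of the parameters is `Pool/Agent/U80/WQ` (large values of a multiplicative weight, sieve), the
invariance of the criterion under tower primes `Pool/Agent/U80/MQ`; the criterion and the nonvanishing for one
`D` are from the starting library (`R413/SQ`, `MP_4a9ea6_nt/TwoPartTwistsX49`).
-/

set_option autoImplicit false

open scoped Classical

namespace Pool.Agent.Results.MP_03e5d0_nt.SumsOfTwoSquaresTowers

open Pool.Agent.Results.MP_92892c_nt.FullClassTwoPartX49 (Family RankZeroShaTwo)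
open Pool.Agent.Results.MP_03e5d0_nt.FullClassX49 (tw AnalyticRankZero Pattern c)

/-- `a² + b²` for the rational number `t = a / b` in lowest terms -/
def height (t : ℚ) : ℕ := t.num.natAbs ^ 2 + t.den ^ 2

/-- the rational numbers `t` with `a² + b² ≤ X` odd and squarefree, with the property `P` of `a² + b²` -/
def Params (P : ℕ → Prop) (X : ℕ) : Set ℚ :=
  {t | height t ≤ X ∧ Odd (height t) ∧ Squarefree (height t) ∧ P (height t)}

/-- the primes `q ≡ 1 mod 4`, inert in `ℚ(√-7)`, that are squares modulo the prime factors of `D` that split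
in `ℚ(√-7)` -/
def TowerPrime (D q : ℕ) : Prop :=
  q.Prime ∧ q % 4 = 1 ∧ (q % 7 = 3 ∨ q % 7 = 5 ∨ q % 7 = 6) ∧
    ∀ p ∈ D.primeFactors, (p % 7 = 1 ∨ p % 7 = 2 ∨ p % 7 = 4) → IsSquare (q : ZMod p)

/-- the twists by `M D m` have analytic rank zero, for all `M ∈ T` and all the products `m` of different tower
primes -/
def AllTwists (T : Finset ℕ) (D : ℕ) : Prop :=
  ∀ M ∈ T, ∀ S : Finset ℕ, (∀ q ∈ S, TowerPrime (tw M D) q) →
    AnalyticRankZero (tw (∏ q ∈ S, q) (tw M D))

section proof

open Pool.Agent.R413.SQ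
open Pool.Agent.Results.MP_4a9ea6_nt.TwoPartTwistsX49 (Adm mat)
open Pool.Agent.U80.WQ (ht TS Pt)
open Pool.Agent.Results.MP_32c55d_nt.InertTowersX49 (TrivialTwo crit tower_iff tp_iff)

theorem adm_of {t : ℚ} (h1 : Odd (height t)) (h2 : Squarefree (height t)) : Adm (height t) :=
  ⟨h2, fun p hp => (Pool.Agent.U80.WQ.ht_cl h2 h1 p hp).2⟩

theorem pat_iff {T V : Finset ℕ} (hT : ∀ M ∈ T, Adm M) (hV : V ⊆ T) {D : ℕ} (hA : Adm D) :
    Pattern T V D ↔ Pt T V D.primeFactors := by
  rw [Pool.Agent.Results.MP_03e5d0_nt.FullClassX49.pat_iff hT hV hA,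
    ← Pool.Agent.U80.WQ.pt_iff hT hA]

theorem par_pat {T V : Finset ℕ} (hT : ∀ M ∈ T, Adm M) (hV : V ⊆ T) (X : ℕ) :
    Params (Pattern T V) X = TS X fun D => Pt T V D.primeFactors := by
  ext t
  constructor
  · rintro ⟨h1, h2, h3, h4⟩
    exact ⟨h1, h2, h3, (pat_iff hT hV (adm_of h2 h3)).1 h4⟩
  · rintro ⟨h1, h2, h3, h4⟩
    exact ⟨h1, h2, h3, (pat_iff hT hV (adm_of h2 h3)).2 h4⟩

theorem par_all (X : ℕ) : Params (fun _ => True) X = TS X fun _ => True := rfl

theorem an_of {D : ℕ} (hA : Adm D) (h : TrivialTwo D) : AnalyticRankZero D :=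
  Pool.Agent.Results.MP_03e5d0_nt.FullClassX49.an_of hA ((crit hA).1 h)

theorem all_of {T : Finset ℕ} (hT : ∀ M ∈ T, Adm M) {D : ℕ} (hA : Adm D) (h : Pattern T T D) :
    AllTwists T D := by
  intro M hM S hS
  have h1 : Adm (tw M D) := Joint.adm_tw (hT M hM) hA
  have h2 : TrivialTwo (tw M D) := by
    rw [crit h1]
    exact (Pool.Agent.Results.MP_03e5d0_nt.FullClassX49.sel_det h1).1 ((h.2 M hM).2 hM)
  have hS' : ∀ q ∈ S, Pool.Agent.Results.MP_32c55d_nt.InertTowersX49.TowerPrime (tw M D) q := hS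
  have h3 := (tower_iff h1 hS').2 h2
  have h4 : Adm (tw (∏ q ∈ S, q) (tw M D)) :=
    Joint.adm_tw (Pool.Agent.U80.MQ.adm_prod fun q hq => (tp_iff _ q).1 (hS' q hq)).1 h1
  exact an_of h4 h3

theorem pos_all {T : Finset ℕ} (hT : ∀ M ∈ T, Adm M) :
    ∃ (k : ℝ) (X₀ : ℕ), 0 < k ∧ ∀ X : ℕ, X₀ ≤ X →
      k * X ≤ ((Params (AllTwists T) X).ncard : ℝ) := by
  obtain ⟨k, X₀, hk0, h⟩ := Pool.Agent.U80.WQ.joint_count hT (Finset.Subset.refl T)
  refine ⟨k, X₀, hk0, fun X hX => ?_⟩
  have h1 := h X hX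
  rw [← par_pat hT (Finset.Subset.refl T)] at h1
  have h3 : (Params (Pattern T T) X).ncard ≤ (Params (AllTwists T) X).ncard := by
    refine Set.ncard_le_ncard (fun t ht => ⟨ht.1, ht.2.1, ht.2.2.1, ?_⟩)
      ((Pool.Agent.U80.WQ.finite_ht X).subset fun t ht => ht.1)
    exact all_of hT (adm_of ht.2.1 ht.2.2.1) ht.2.2.2
  exact h1.trans (by exact_mod_cast h3)

end proof

/-- **Theorem.** -/
theorem result :
    (∀ (M : ℕ) (t : ℚ), Family M → Odd (height t) → Squarefree (height t) →
      Family (tw M (height t)) ∧ M * height t = tw M (height t) * Nat.gcd M (height t) ^ 2) ∧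
    (∀ T V : Finset ℕ, (∀ M ∈ T, Family M) → V ⊆ T →
      Filter.Tendsto (fun X : ℕ => ((Params (Pattern T V) X).ncard : ℝ) /
        ((Params (fun _ => True) X).ncard : ℝ)) Filter.atTop
        (nhds (c ^ V.card * (1 - c) ^ (T \ V).card))) ∧
    0.4194 < c ∧ c < 0.4195 ∧
    (∀ D : ℕ, Family D → {q : ℕ | TowerPrime D q}.Infinite) ∧
    (∀ T : Finset ℕ, (∀ M ∈ T, Family M) → ∃ (k : ℝ) (X₀ : ℕ), 0 < k ∧ ∀ X : ℕ, X₀ ≤ X →
      k * ({t : ℚ | height t ≤ X}.ncard : ℝ) ≤ ((Params (AllTwists T) X).ncard : ℝ) ∧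
      k * ({t : ℚ | max t.num.natAbs t.den ≤ X}.ncard : ℝ) ≤
        ({t : ℚ | max t.num.natAbs t.den ≤ X ∧ Odd (height t) ∧ Squarefree (height t) ∧
          AllTwists T (height t)}.ncard : ℝ)) := by
  have hc := Pool.Agent.Y948.CQ.t_C2.2.2.2
  refine ⟨fun M t hM h1 h2 => ?_, fun T V hT hV => ?_, hc.1, hc.2, fun D hD => ?_, fun T hT => ?_⟩
  · have hA := adm_of h1 h2
    exact ⟨Pool.Agent.R413.SQ.Joint.adm_tw hM hA, (Pool.Agent.R413.SQ.Joint.ac_tw hM hA).2⟩
  · have h := Pool.Agent.U80.WQ.joint_t hT hV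
    simp only [par_pat hT hV, par_all]
    exact h
  · exact (Pool.Agent.Results.MP_32c55d_nt.InertTowersX49.result.1 D hD).1
  · obtain ⟨k, X₀, hk0, h⟩ := pos_all hT
    refine ⟨k / 6, X₀ + 1, by positivity, fun X hX => ⟨?_, ?_⟩⟩
    · have h1 := h X (by omega)
      have h2 : ({t : ℚ | height t ≤ X}.ncard : ℝ) ≤ 3 * X := Pool.Agent.U80.WQ.total_t X
      refine le_trans ?_ h1
      have h3 : (0 : ℝ) ≤ X := Nat.cast_nonneg X
      calc k / 6 * ({t : ℚ | height t ≤ X}.ncard : ℝ) ≤ k / 6 * (3 * X) :=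
            mul_le_mul_of_nonneg_left h2 (by positivity)
        _ ≤ k * X := by nlinarith
    · have hX1 : X ≤ X ^ 2 := Nat.le_self_pow (by norm_num) X
      have h1 := h (X ^ 2) (by omega)
      have h2 : ({t : ℚ | max t.num.natAbs t.den ≤ X}.ncard : ℝ) ≤ 6 * X ^ 2 :=
        Pool.Agent.Results.MP_696deb_nt.SumsOfTwoSquares.box_card (by omega)
      have h3 : Params (AllTwists T) (X ^ 2) ⊆
          {t : ℚ | max t.num.natAbs t.den ≤ X ∧ Odd (height t) ∧ Squarefree (height t) ∧
            AllTwists T (height t)} := by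
        rintro t ⟨h4, h5⟩
        refine ⟨?_, h5⟩
        have h6 : t.num.natAbs ^ 2 + t.den ^ 2 ≤ X ^ 2 := h4
        refine max_le ?_ ?_
        · exact (Nat.pow_le_pow_iff_left (by norm_num : (2 : ℕ) ≠ 0)).1 (by omega)
        · exact (Nat.pow_le_pow_iff_left (by norm_num : (2 : ℕ) ≠ 0)).1 (by omega)
      have h4 := Set.ncard_le_ncard h3
        ((Pool.Agent.Results.MP_696deb_nt.SumsOfTwoSquares.box_fin X).subset fun t ht => ht.1)
      have h5 : ((Params (AllTwists T) (X ^ 2)).ncard : ℝ) ≤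
          ({t : ℚ | max t.num.natAbs t.den ≤ X ∧ Odd (height t) ∧ Squarefree (height t) ∧
            AllTwists T (height t)}.ncard : ℝ) := by
        exact_mod_cast h4
      push_cast at h1
      refine le_trans ?_ (h1.trans h5)
      calc k / 6 * ({t : ℚ | max t.num.natAbs t.den ≤ X}.ncard : ℝ) ≤ k / 6 * (6 * X ^ 2) :=
            mul_le_mul_of_nonneg_left h2 (by positivity)
        _ = k * X ^ 2 := by ring

end Pool.Agent.Results.MP_03e5d0_nt.SumsOfTwoSquaresTowers
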